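import Mathlib

/-! # Functional graphs with a potential; rooted forests; three colours -/

set_option autoImplicit false

namespace Pool.Agent.TH87.BD

open SimpleGraph Finset

universe u

variable {V : Type u}

/-- Three colours suffice for the graph of a function. -/
theorem three [Fintype V] [DecidableEq V] (g : V → V) :
    ∃ σ : V → Fin 3, ∀ x, g x ≠ x → σ x ≠ σ (g x) := by
  have key : ∀ n : ℕ, ∀ S : Finset V, S.card = n →
      ∃ σ : V → Fin 3, ∀ x ∈ S, g x ∈ S → g x ≠ x → σ x ≠ σ (g x) := by
    intro n
    induction n with
    | zero =>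
      intro S hS
      refine ⟨fun _ => 0, fun x hx => ?_⟩
      rw [Finset.card_eq_zero.1 hS] at hx
      simp at hx
    | succ n ih =>
      intro S hS
      have hne : S.Nonempty := Finset.card_pos.1 (by omega)
      obtain ⟨v, hv, hv1⟩ : ∃ v ∈ S, (S.filter fun x => g x = v).card ≤ 1 := by
        by_contra hcon
        push Not at hcon
        have h1 : ∑ v ∈ S, (S.filter fun x => g x = v).card ≤ S.card := by
          have h2 := Finset.card_eq_sum_card_fiberwise (f := g)
            (s := S.filter fun x => g x ∈ S) (t := S) (by
              intro x hx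
              have hx' := Finset.mem_filter.1 (Finset.mem_coe.1 hx)
              exact Finset.mem_coe.2 hx'.2)
          have h3 : ∑ v ∈ S, (S.filter fun x => g x = v).card =
              ∑ v ∈ S, ((S.filter fun x => g x ∈ S).filter fun x => g x = v).card := by
            refine Finset.sum_congr rfl fun v hv => ?_
            congr 1
            ext x
            simp only [Finset.mem_filter]
            constructor
            · rintro ⟨h1, h2⟩
              exact ⟨⟨h1, h2 ▸ hv⟩, h2⟩
            · rintro ⟨⟨h1, _⟩, h2⟩
              exact ⟨h1, h2⟩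
          rw [h3, ← h2]
          exact Finset.card_filter_le _ _
        have h2 : ∑ v ∈ S, 2 ≤ ∑ v ∈ S, (S.filter fun x => g x = v).card :=
          Finset.sum_le_sum fun v hv => hcon v hv
        rw [Finset.sum_const, smul_eq_mul] at h2
        have := Finset.card_pos.2 hne
        omega
      obtain ⟨σ, hσ⟩ := ih (S.erase v) (by rw [Finset.card_erase_of_mem hv]; omega)
      -- the forbidden colours
      have : Nonempty V := ⟨v⟩
      obtain ⟨u, hu⟩ : ∃ u, ∀ x ∈ S, g x = v → x = u := by
        rcases Finset.card_le_one_iff_subset_singleton.1 hv1 with ⟨u, hu⟩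
        exact ⟨u, fun x hx hxv => Finset.mem_singleton.1 (hu (Finset.mem_filter.2 ⟨hx, hxv⟩))⟩
      obtain ⟨c, hc1, hc2⟩ : ∃ c : Fin 3, c ≠ σ (g v) ∧ c ≠ σ u := by
        generalize σ (g v) = a
        generalize σ u = b
        revert a b
        decide
      refine ⟨Function.update σ v c, fun x hx hgx hne => ?_⟩
      by_cases hxv : x = v
      · subst hxv
        rw [Function.update_self, Function.update_of_ne hne]
        exact hc1
      · rw [Function.update_of_ne hxv]
        by_cases hgv : g x = v
        · rw [hgv, Function.update_self]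
          rw [hu x hx hgv]
          exact hc2.symm
        · rw [Function.update_of_ne hgv]
          exact hσ x (Finset.mem_erase.2 ⟨hxv, hx⟩) (Finset.mem_erase.2 ⟨hgv, hgx⟩) hne
  obtain ⟨σ, hσ⟩ := key _ Finset.univ rfl
  exact ⟨σ, fun x hx => hσ x (Finset.mem_univ _) (Finset.mem_univ _) hx⟩

/-- A graph whose edges are given by a parent function with increasing potential is a forest. -/
theorem acyclic_of_pot {T : Type*} [LinearOrder T] {H : SimpleGraph V} (p : V → Option V)
    (φ : V → T) (hφ : ∀ x y, p x = some y → φ x < φ y)
    (hH : ∀ x y, H.Adj x y → p x = some y ∨ p y = some x) : H.IsAcyclic := by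
  classical
  intro v c hc
  obtain ⟨x, hx, hmin⟩ : ∃ x ∈ c.support.toFinset, ∀ y ∈ c.support.toFinset, φ x ≤ φ y :=
    Finset.exists_min_image _ _ ⟨v, by simp⟩
  rw [List.mem_toFinset] at hx
  have hc' := hc.rotate hx
  have hmem : ∀ y ∈ (c.rotate x hx).support, φ x ≤ φ y := by
    intro y hy
    refine hmin y (List.mem_toFinset.2 ?_)
    rcases (Walk.mem_support_iff _).1 hy with h | h
    · rw [h]; exact hx
    · have := (c.support_rotate x hx).mem_iff.1 h
      exact List.mem_of_mem_tail this
  have hnb : ∀ y ∈ (c.rotate x hx).support, H.Adj x y → p x = some y := by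
    intro y hy hxy
    rcases hH x y hxy with h | h
    · exact h
    · exact absurd (hφ y x h) (not_lt.2 (hmem y hy))
  have h1 := hnb _ (Walk.getVert_mem_support _ 1) ((c.rotate x hx).adj_snd hc'.not_nil)
  have h2 := hnb _ (Walk.getVert_mem_support _ _) ((c.rotate x hx).adj_penultimate hc'.not_nil).symm
  exact hc'.snd_ne_penultimate (Option.some.inj (h1.symm.trans h2))

/-- In such a graph distances are bounded by twice the number of values of the potential. -/
theorem dist_of_pot {T : Type*} [LinearOrder T] [Fintype T] {H : SimpleGraph V}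
    (p : V → Option V) (φ : V → T) (hφ : ∀ x y, p x = some y → φ x < φ y)
    (hH : ∀ x y, H.Adj x y → p x = some y ∨ p y = some x)
    (hp : ∀ x y, p x = some y → H.Adj x y) (u v : V) (huv : H.Reachable u v) :
    H.dist u v ≤ 2 * Fintype.card T := by
  classical
  -- the number of values above
  let h : V → ℕ := fun x => (Finset.univ.filter fun t => φ x < t).card
  have hdec : ∀ x y, p x = some y → h y < h x := by
    intro x y hxy
    refine Finset.card_lt_card ?_
    refine ⟨fun t ht => ?_, fun hsub => ?_⟩
    · simp only [Finset.mem_filter, Finset.mem_univ, true_and] at ht ⊢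
      exact (hφ x y hxy).trans ht
    · have h1 : φ y ∈ Finset.univ.filter fun t => φ x < t := by
        simp only [Finset.mem_filter, Finset.mem_univ, true_and]
        exact hφ x y hxy
      have h2 := hsub h1
      simp at h2
  let st : V → V := fun x => (p x).getD x
  have hst0 : ∀ x, p x = none → st x = x := fun x hx => by simp [st, hx]
  have hst1 : ∀ x y, p x = some y → st x = y := fun x y hx => by simp [st, hx]
  have hwalk : ∀ n x, ∃ w : H.Walk x (st^[n] x), w.length ≤ n := by
    intro n
    induction n with
    | zero => exact fun x => ⟨Walk.nil, le_rfl⟩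
    | succ n ih =>
      intro x
      rcases hpx : p x with _ | y
      · have e : st^[n + 1] x = x := Function.iterate_fixed (hst0 x hpx) _
        rw [e]
        exact ⟨Walk.nil, by simp⟩
      · obtain ⟨w, hw⟩ := ih y
        have e : st^[n + 1] x = st^[n] y := by
          rw [Function.iterate_succ_apply, hst1 x y hpx]
        rw [e]
        exact ⟨Walk.cons (hp x y hpx) w, by rw [Walk.length_cons]; omega⟩
  have hnone : ∀ n x, h x ≤ n → p (st^[n] x) = none := by
    intro n
    induction n with
    | zero =>
      intro x hx
      rcases hpx : p x with _ | y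
      · exact hpx
      · have := hdec x y hpx
        omega
    | succ n ih =>
      intro x hx
      rcases hpx : p x with _ | y
      · have e : st^[n + 1] x = x := Function.iterate_fixed (hst0 x hpx) _
        rw [e]
        exact hpx
      · rw [Function.iterate_succ_apply, hst1 x y hpx]
        have := hdec x y hpx
        exact ih y (by omega)
  set N := Fintype.card T with hN
  have hle : ∀ x, h x ≤ N := fun x => Finset.card_le_univ _
  have hstep : ∀ x y, p x = some y → st^[N] x = st^[N] y := by
    intro x y hxy
    have h1 : st^[N + 1] x = st^[N] y := by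
      rw [Function.iterate_succ_apply, hst1 x y hxy]
    have h2 : st^[N + 1] x = st^[N] x := by
      rw [Function.iterate_succ_apply', hst0 _ (hnone N x (hle x))]
    rw [← h1, h2]
  have hadj : ∀ x y, H.Adj x y → st^[N] x = st^[N] y := by
    intro x y hxy
    rcases hH x y hxy with h1 | h1
    · exact hstep x y h1
    · exact (hstep y x h1).symm
  have hreach : st^[N] u = st^[N] v := by
    obtain ⟨w⟩ := huv
    induction w with
    | nil => rfl
    | cons hxy _ ih => exact (hadj _ _ hxy).trans ih
  obtain ⟨w1, hw1⟩ := hwalk N u
  obtain ⟨w2, hw2⟩ := hwalk N v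
  have h3 := dist_le (w1.append ((w2.copy rfl hreach.symm).reverse))
  rw [Walk.length_append, Walk.length_reverse, Walk.length_copy] at h3
  omega

/-- A finite forest can be rooted at given vertices. -/
theorem exists_rooting_at (F : SimpleGraph V) (hF : F.IsAcyclic) (r : V → V)
    (hr : ∀ x, F.Reachable x (r x)) (hrr : ∀ x y, F.Reachable x y → r x = r y) :
    ∃ (p : V → Option V) (lev : V → ℕ),
      (∀ x y, p x = some y → F.Adj x y ∧ lev x = lev y + 1) ∧
      (∀ x, p x = none → lev x = 0) ∧
      (∀ x y, F.Adj x y → p x = some y ∨ p y = some x) ∧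
      (∀ x, lev x = F.dist x (r x)) := by
  classical
  let P : ∀ x, F.Path x (r x) := fun x => (hr x).some.toPath
  have hP : ∀ x (Q : F.Walk x (r x)), Q.IsPath → (P x).1 = Q := fun x Q hQ => by
    have := hF.path_unique (P x) ⟨Q, hQ⟩
    rw [this]
  refine ⟨fun x => if x = r x then none else some (P x).1.snd, fun x => (P x).1.length,
    ?_, ?_, ?_, ?_⟩
  · intro x y hxy
    by_cases hx : x = r x
    · simp only [if_pos hx] at hxy
      exact absurd hxy (by simp)
    · simp only [if_neg hx, Option.some.injEq] at hxy
      have hnil : ¬ (P x).1.Nil := Walk.not_nil_of_ne hx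
      have hadj := (P x).1.adj_snd hnil
      rw [hxy] at hadj
      refine ⟨hadj, ?_⟩
      have hry : r x = r y := hrr x y hadj.reachable
      have ht : ((P x).1.tail.copy hxy hry).IsPath := by
        rw [Walk.isPath_copy]
        exact (P x).2.tail
      show (P x).1.length = (P y).1.length + 1
      rw [hP y _ ht, Walk.length_copy, Walk.length_tail_add_one hnil]
  · intro x hx
    by_cases hx' : x = r x
    · have h1 : (Walk.nil.copy rfl hx' : F.Walk x (r x)).IsPath := by
        rw [Walk.isPath_copy]
        exact Walk.IsPath.nil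
      show (P x).1.length = 0
      rw [hP x _ h1, Walk.length_copy, Walk.length_nil]
    · simp only [if_neg hx'] at hx
      exact absurd hx (by simp)
  · intro x y hxy
    have hrxy : r x = r y := hrr x y hxy.reachable
    by_cases hy : y ∈ (P x).1.support
    · left
      have hxr : x ≠ r x := by
        intro h
        have h1 : (Walk.nil.copy rfl h : F.Walk x (r x)).IsPath := by
          rw [Walk.isPath_copy]
          exact Walk.IsPath.nil
        rw [hP x _ h1, Walk.support_copy, Walk.support_nil, List.mem_singleton] at hy
        exact hxy.ne hy.symm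
      simp only [if_neg hxr, Option.some.injEq]
      have h1 : ((P x).1.takeUntil y hy).IsPath := (P x).2.takeUntil hy
      have h2 : (Walk.cons hxy Walk.nil : F.Walk x y).IsPath := by
        simp [Walk.cons_isPath_iff, hxy.ne]
      have h3 : (P x).1.takeUntil y hy = Walk.cons hxy Walk.nil :=
        congrArg Subtype.val (hF.path_unique ⟨_, h1⟩ ⟨_, h2⟩)
      have h4 := (P x).1.take_spec hy
      rw [h3] at h4
      rw [← h4]
      simp
    · right
      have h1 : ((Walk.cons hxy.symm (P x).1).copy rfl hrxy : F.Walk y (r y)).IsPath := by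
        rw [Walk.isPath_copy]
        exact (P x).2.cons hy
      have hyr : y ≠ r y := by
        intro h
        apply hy
        rw [h, ← hrxy]
        exact Walk.end_mem_support _
      simp only [if_neg hyr, Option.some.injEq]
      rw [hP y _ h1]
      simp [Walk.snd]
  · intro x
    obtain ⟨w, hw1, hw2⟩ := (hr x).exists_path_of_dist
    show (P x).1.length = _
    rw [hP x w hw1, hw2]

/-- A finite forest can be rooted. -/
theorem exists_rooting (F : SimpleGraph V) (hF : F.IsAcyclic) :
    ∃ (p : V → Option V) (lev : V → ℕ),
      (∀ x y, p x = some y → F.Adj x y ∧ lev x = lev y + 1) ∧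
      (∀ x, p x = none → lev x = 0) ∧
      (∀ x y, F.Adj x y → p x = some y ∨ p y = some x) := by
  obtain ⟨p, lev, h1, h2, h3, -⟩ := exists_rooting_at F hF
    (fun x => (F.connectedComponentMk x).out)
    (fun x => (ConnectedComponent.exact (F.connectedComponentMk x).out_eq).symm)
    (fun x y h => by
      show (F.connectedComponentMk x).out = (F.connectedComponentMk y).out
      rw [ConnectedComponent.sound h])
  exact ⟨p, lev, h1, h2, h3⟩

/-- The centre of a component of diameter at most `d`. -/
theorem center_comp [Fintype V] (F : SimpleGraph V) (hF : F.IsAcyclic) (d : ℕ)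
    (hd : ∀ u v : V, F.Reachable u v → F.dist u v ≤ d) (x0 : V) :
    ∃ r, F.Reachable x0 r ∧ ∀ x, F.Reachable x0 x → F.dist x r ≤ (d + 1) / 2 := by
  classical
  obtain ⟨⟨u, v⟩, huv, hmax⟩ : ∃ q ∈ (Finset.univ : Finset (V × V)).filter
      (fun q => F.Reachable x0 q.1 ∧ F.Reachable x0 q.2), ∀ q' ∈ (Finset.univ : Finset (V × V)).filter
      (fun q => F.Reachable x0 q.1 ∧ F.Reachable x0 q.2), F.dist q'.1 q'.2 ≤ F.dist q.1 q.2 :=
    Finset.exists_max_image _ _ ⟨(x0, x0), by simp⟩
  simp only [Finset.mem_filter, Finset.mem_univ, true_and] at huv hmax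
  have hm : ∀ a b, F.Reachable x0 a → F.Reachable x0 b → F.dist a b ≤ F.dist u v :=
    fun a b ha hb => hmax (a, b) ⟨ha, hb⟩
  have hruv : F.Reachable u v := huv.1.symm.trans huv.2
  obtain ⟨p, hp, hpl⟩ := hruv.exists_path_of_dist
  have hD := hd u v hruv
  set D := F.dist u v with hDdef
  have h1 : F.dist u (p.getVert (D / 2)) ≤ D / 2 := by
    have h := dist_le (p.take (D / 2))
    rw [Walk.take_length] at h
    omega
  have h2 : F.dist (p.getVert (D / 2)) v ≤ D - D / 2 := by
    have h := dist_le (p.drop (D / 2))
    rw [Walk.drop_length] at h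
    omega
  have hru : F.Reachable u (p.getVert (D / 2)) := ⟨p.take _⟩
  have hrp : p.getVert (D / 2) ∈ p.support := Walk.getVert_mem_support _ _
  refine ⟨p.getVert (D / 2), huv.1.trans hru, fun x hx => ?_⟩
  have hux : F.Reachable u x := huv.1.symm.trans hx
  have hxv : F.Reachable x v := hx.symm.trans huv.2
  obtain ⟨a, ha, hal⟩ := hux.exists_path_of_dist
  obtain ⟨b, hb, hbl⟩ := hxv.exists_path_of_dist
  have hmem : p.getVert (D / 2) ∈ (a.append b).support := by
    have e : p = (a.append b).bypass :=
      congrArg Subtype.val (hF.path_unique ⟨p, hp⟩ ⟨_, (a.append b).bypass_isPath⟩)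
    exact (a.append b).support_bypass_subset (e ▸ hrp)
  have hdux := hm u x huv.1 hx
  have hdxv := hm x v hx huv.2
  have htri : F.dist u v ≤ F.dist u (p.getVert (D / 2)) + F.dist (p.getVert (D / 2)) v := by
    obtain ⟨s, hs⟩ := hru.exists_walk_length_eq_dist
    obtain ⟨t, ht⟩ := (hru.symm.trans hruv).exists_walk_length_eq_dist
    have := dist_le (s.append t)
    rw [Walk.length_append] at this
    omega
  rcases (Walk.mem_support_append_iff _ _).1 hmem with h | h
  · have h3 := congrArg Walk.length (a.take_spec h)
    rw [Walk.length_append] at h3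
    have h4 := dist_le (a.takeUntil _ h)
    have h5 := dist_le (a.dropUntil _ h)
    rw [SimpleGraph.dist_comm] at h5
    omega
  · have h3 := congrArg Walk.length (b.take_spec h)
    rw [Walk.length_append] at h3
    have h4 := dist_le (b.takeUntil _ h)
    have h5 := dist_le (b.dropUntil _ h)
    omega

/-- Centres of all components. -/
theorem exists_center [Fintype V] (F : SimpleGraph V) (hF : F.IsAcyclic) (d : ℕ)
    (hd : ∀ u v : V, F.Reachable u v → F.dist u v ≤ d) :
    ∃ r : V → V, (∀ x, F.Reachable x (r x)) ∧ (∀ x y, F.Reachable x y → r x = r y) ∧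
      ∀ x, F.dist x (r x) ≤ (d + 1) / 2 := by
  choose r hr1 hr2 using center_comp F hF d hd
  have ho : ∀ x, F.Reachable (F.connectedComponentMk x).out x := fun x =>
    ConnectedComponent.exact (F.connectedComponentMk x).out_eq
  refine ⟨fun x => r (F.connectedComponentMk x).out, fun x => ?_, fun x y h => ?_, fun x => ?_⟩
  · exact (ho x).symm.trans (hr1 _)
  · show r (F.connectedComponentMk x).out = r (F.connectedComponentMk y).out
    rw [ConnectedComponent.sound h]
  · exact hr2 _ x (ho x)

end Pool.Agent.TH87.BD
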