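import Pool.Agent.TH87.BD.Words

/-! # The repartition -/

set_option autoImplicit false

namespace Pool.Agent.TH87.BD

open SimpleGraph Finset

universe u

variable {V : Type u}

/-- Repartition of two rooted forests without loops. -/
theorem repartition [Fintype V] (d : ℕ) (A B : SimpleGraph V) (hAB : Disjoint A B)
    (p₁ p₂ : V → Option V) (l₁ l₂ : V → ℕ)
    (h1 : ∀ x y, p₁ x = some y → A.Adj x y ∧ l₁ x = l₁ y + 1)
    (h1' : ∀ x y, A.Adj x y → p₁ x = some y ∨ p₁ y = some x)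
    (h2 : ∀ x y, p₂ x = some y → B.Adj x y ∧ l₂ x = l₂ y + 1)
    (h2' : ∀ x y, B.Adj x y → p₂ x = some y ∨ p₂ y = some x)
    (h0 : ∀ x, p₂ x = none → l₂ x = 0) (hd : ∀ x, l₂ x ≤ d)
    (hloop : ∀ x y, p₁ x = some y → ∀ n, (up p₂)^[n] y ≠ x) :
    ∃ H₁ H₂ : SimpleGraph V, H₁ ⊔ H₂ = A ⊔ B ∧ Disjoint H₁ H₂ ∧ H₁.IsAcyclic ∧ H₂.IsAcyclic ∧
      (∀ u v : V, H₁.Reachable u v → H₁.dist u v ≤ 2 * 4 ^ (d + 1)) ∧
      (∀ u v : V, H₂.Reachable u v → H₂.dist u v ≤ 2 * 4 ^ (d + 1)) := by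
  classical
  obtain ⟨φ₁, φ₂, hφ, hφ'⟩ := exists_pot d p₁ p₂ l₂ (fun x y h => (h2 x y h).2) h0 hd hloop
  let q₁ : V → Option V := fun x => if ∃ y, p₁ x = some y ∧ φ₁ x < φ₁ y then p₁ x else p₂ x
  let q₂ : V → Option V := fun x => if ∃ y, p₁ x = some y ∧ φ₁ x < φ₁ y then p₂ x else p₁ x
  have hq : ∀ x, (q₁ x = p₁ x ∧ q₂ x = p₂ x ∧ ∃ y, p₁ x = some y ∧ φ₁ x < φ₁ y) ∨
      (q₁ x = p₂ x ∧ q₂ x = p₁ x ∧ ¬ ∃ y, p₁ x = some y ∧ φ₁ x < φ₁ y) := by
    intro x
    by_cases h : ∃ y, p₁ x = some y ∧ φ₁ x < φ₁ y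
    · exact Or.inl ⟨if_pos h, if_pos h, h⟩
    · exact Or.inr ⟨if_neg h, if_neg h, h⟩
  have pot1 : ∀ x y, q₁ x = some y → φ₁ x < φ₁ y := by
    intro x y hxy
    rcases hq x with ⟨ha, -, z, hz, hlt⟩ | ⟨ha, -, -⟩
    · rw [ha, hz] at hxy
      rw [← Option.some.inj hxy]
      exact hlt
    · rw [ha] at hxy
      exact (hφ x y hxy).1
  have pot2 : ∀ x y, q₂ x = some y → OrderDual.toDual (φ₂ x) < OrderDual.toDual (φ₂ y) := by
    intro x y hxy
    rw [OrderDual.toDual_lt_toDual]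
    rcases hq x with ⟨-, ha, -⟩ | ⟨-, ha, hn⟩
    · rw [ha] at hxy
      exact (hφ x y hxy).2
    · rw [ha] at hxy
      rcases hφ' x y hxy with h | h
      · exact absurd ⟨y, hxy, h⟩ hn
      · exact h
  have some1 : ∀ x y, q₁ x = some y → p₁ x = some y ∨ p₂ x = some y := by
    intro x y hxy
    rcases hq x with ⟨ha, -, -⟩ | ⟨ha, -, -⟩ <;> rw [ha] at hxy
    · exact Or.inl hxy
    · exact Or.inr hxy
  have some2 : ∀ x y, q₂ x = some y → p₁ x = some y ∨ p₂ x = some y := by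
    intro x y hxy
    rcases hq x with ⟨-, ha, -⟩ | ⟨-, ha, -⟩ <;> rw [ha] at hxy
    · exact Or.inr hxy
    · exact Or.inl hxy
  have hdisj : ∀ x y, A.Adj x y → ¬ B.Adj x y := fun x y ha hb =>
    (SimpleGraph.disjoint_left.1 hAB x y ha) hb
  have hne : ∀ x y, p₁ x = some y ∨ p₂ x = some y → x ≠ y := by
    rintro x y (h | h)
    · exact (h1 x y h).1.ne
    · exact (h2 x y h).1.ne
  have adj : ∀ (q : V → Option V) (x y : V),
      (SimpleGraph.fromRel fun x y => q x = some y).Adj x y ↔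
        x ≠ y ∧ (q x = some y ∨ q y = some x) := fun q x y => SimpleGraph.fromRel_adj _ _ _
  have nboth : ∀ x y, ¬ ((p₁ x = some y ∨ p₂ x = some y) ∧ (p₁ y = some x ∨ p₂ y = some x)) := by
    rintro x y ⟨h | h, h' | h'⟩
    · have := (h1 x y h).2
      have := (h1 y x h').2
      omega
    · exact hdisj x y (h1 x y h).1 (h2 y x h').1.symm
    · exact hdisj x y (h1 y x h').1.symm (h2 x y h).1
    · have := (h2 x y h).2
      have := (h2 y x h').2
      omega
  have nsame : ∀ x y, ¬ (q₁ x = some y ∧ q₂ x = some y) := by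
    rintro x y ⟨ha, hb⟩
    rcases hq x with ⟨hc, hc', -⟩ | ⟨hc, hc', -⟩
    · rw [hc] at ha
      rw [hc'] at hb
      exact hdisj x y (h1 x y ha).1 (h2 x y hb).1
    · rw [hc] at ha
      rw [hc'] at hb
      exact hdisj x y (h1 x y hb).1 (h2 x y ha).1
  have hcard : Fintype.card (Lex (Fin (d + 1) → Fin 4)) = 4 ^ (d + 1) := by
    rw [Fintype.card_lex]
    simp
  refine ⟨SimpleGraph.fromRel fun x y => q₁ x = some y, SimpleGraph.fromRel fun x y => q₂ x = some y,
    ?_, ?_, ?_, ?_, ?_, ?_⟩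
  · ext x y
    rw [SimpleGraph.sup_adj, SimpleGraph.sup_adj, adj, adj]
    constructor
    · rintro (⟨-, h | h⟩ | ⟨-, h | h⟩)
      · rcases some1 x y h with h | h
        · exact Or.inl (h1 x y h).1
        · exact Or.inr (h2 x y h).1
      · rcases some1 y x h with h | h
        · exact Or.inl (h1 y x h).1.symm
        · exact Or.inr (h2 y x h).1.symm
      · rcases some2 x y h with h | h
        · exact Or.inl (h1 x y h).1
        · exact Or.inr (h2 x y h).1
      · rcases some2 y x h with h | h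
        · exact Or.inl (h1 y x h).1.symm
        · exact Or.inr (h2 y x h).1.symm
    · have hmain : ∀ x y, p₁ x = some y ∨ p₂ x = some y → q₁ x = some y ∨ q₂ x = some y := by
        rintro x y (h | h)
        · rcases hq x with ⟨hc, hc', -⟩ | ⟨hc, hc', -⟩
          · exact Or.inl (hc.trans h)
          · exact Or.inr (hc'.trans h)
        · rcases hq x with ⟨hc, hc', -⟩ | ⟨hc, hc', -⟩
          · exact Or.inr (hc'.trans h)
          · exact Or.inl (hc.trans h)
      intro h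
      have hor : (p₁ x = some y ∨ p₂ x = some y) ∨ (p₁ y = some x ∨ p₂ y = some x) := by
        rcases h with h | h
        · rcases h1' x y h with h | h
          · exact Or.inl (Or.inl h)
          · exact Or.inr (Or.inl h)
        · rcases h2' x y h with h | h
          · exact Or.inl (Or.inr h)
          · exact Or.inr (Or.inr h)
      rcases hor with h | h
      · rcases hmain x y h with h' | h'
        · exact Or.inl ⟨hne x y h, Or.inl h'⟩
        · exact Or.inr ⟨hne x y h, Or.inl h'⟩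
      · rcases hmain y x h with h' | h'
        · exact Or.inl ⟨(hne y x h).symm, Or.inr h'⟩
        · exact Or.inr ⟨(hne y x h).symm, Or.inr h'⟩
  · rw [SimpleGraph.disjoint_left]
    intro x y ha hb
    rw [adj] at ha hb
    rcases ha.2 with h | h <;> rcases hb.2 with h' | h'
    · exact nsame x y ⟨h, h'⟩
    · exact nboth x y ⟨some1 x y h, some2 y x h'⟩
    · exact nboth x y ⟨some2 x y h', some1 y x h⟩
    · exact nsame y x ⟨h, h'⟩
  · exact acyclic_of_pot q₁ φ₁ pot1 fun x y h => ((adj q₁ x y).1 h).2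
  · exact acyclic_of_pot q₂ (fun x => OrderDual.toDual (φ₂ x)) pot2
      fun x y h => ((adj q₂ x y).1 h).2
  · intro u v huv
    have := dist_of_pot q₁ φ₁ pot1 (fun x y h => ((adj q₁ x y).1 h).2)
      (fun x y h => (adj q₁ x y).2 ⟨hne x y (some1 x y h), Or.inl h⟩) u v huv
    rwa [hcard] at this
  · intro u v huv
    have := dist_of_pot q₂ (fun x => OrderDual.toDual (φ₂ x)) pot2
      (fun x y h => ((adj q₂ x y).1 h).2)
      (fun x y h => (adj q₂ x y).2 ⟨hne x y (some2 x y h), Or.inl h⟩) u v huv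
    have hc' : Fintype.card (Lex (Fin (d + 1) → Fin 4))ᵒᵈ = 4 ^ (d + 1) := by
      rw [Fintype.card_orderDual, hcard]
    rwa [hc'] at this

/-- Walking up. -/
theorem walk_up (F : SimpleGraph V) (p : V → Option V) (l : V → ℕ)
    (h : ∀ x y, p x = some y → F.Adj x y ∧ l x = l y + 1) (n : ℕ) (x : V) :
    ∃ w : F.Walk x ((up p)^[n] x), w.length ≤ l x := by
  induction n generalizing x with
  | zero => exact ⟨Walk.nil, by simp⟩
  | succ n ih =>
    rcases hpx : p x with _ | y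
    · have e : (up p)^[n + 1] x = x := Function.iterate_fixed (by simp [up, hpx]) _
      rw [e]
      exact ⟨Walk.nil, by simp⟩
    · obtain ⟨w, hw⟩ := ih y
      have e : (up p)^[n + 1] x = (up p)^[n] y := by
        rw [Function.iterate_succ_apply]
        congr 1
        simp [up, hpx]
      rw [e]
      refine ⟨Walk.cons (h x y hpx).1 w, ?_⟩
      rw [Walk.length_cons, (h x y hpx).2]
      omega

/-- The repartition when no edge of `F₁` joins vertices at small distance at least two in `F₂`. -/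
theorem main_dist [Fintype V] (d : ℕ) (F₁ F₂ : SimpleGraph V) (hF₁ : F₁.IsAcyclic)
    (hF₂ : F₂.IsAcyclic) (hd : ∀ u v : V, F₂.Reachable u v → F₂.dist u v ≤ d)
    (hin : ∀ u v : V, F₁.Adj u v → F₂.Reachable u v → F₂.Adj u v ∨ (d + 1) / 2 < F₂.dist u v) :
    ∃ H₁ H₂ : SimpleGraph V, H₁ ⊔ H₂ = F₁ ⊔ F₂ ∧ Disjoint H₁ H₂ ∧ H₁.IsAcyclic ∧ H₂.IsAcyclic ∧
      (∀ u v : V, H₁.Reachable u v → H₁.dist u v ≤ 2 * 4 ^ ((d + 1) / 2 + 1)) ∧
      (∀ u v : V, H₂.Reachable u v → H₂.dist u v ≤ 2 * 4 ^ ((d + 1) / 2 + 1)) := by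
  classical
  have hA : (F₁ \ F₂).IsAcyclic := hF₁.anti sdiff_le
  obtain ⟨p₁, l₁, h1, -, h1'⟩ := exists_rooting (F₁ \ F₂) hA
  obtain ⟨r, hr, hrr, hrd⟩ := exists_center F₂ hF₂ d hd
  obtain ⟨p₂, l₂, h2, h0, h2', hl2⟩ := exists_rooting_at F₂ hF₂ r hr hrr
  have h := repartition ((d + 1) / 2) (F₁ \ F₂) F₂ disjoint_sdiff_self_left p₁ p₂ l₁ l₂ h1 h1'
    h2 h2' h0 (fun x => (hl2 x).trans_le (hrd x)) (by
      intro x y hxy n hn
      have ha := (h1 x y hxy).1
      rw [SimpleGraph.sdiff_adj] at ha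
      have hwu := walk_up F₂ p₂ l₂ h2 n y
      rw [hn] at hwu
      obtain ⟨w, hw⟩ := hwu
      have h4 := (hl2 y).trans_le (hrd y)
      have h5 := dist_le w.reverse
      rw [Walk.length_reverse] at h5
      rcases hin x y ha.1 ⟨w.reverse⟩ with h6 | h6
      · exact ha.2 h6
      · omega)
  rwa [sdiff_sup_self] at h

/-- Graphs without short cycles satisfy the hypothesis of `main_dist`. -/
theorem dist_of_girth (k : ℕ) (F₁ F₂ : SimpleGraph V)
    (hg : ∀ (v : V) (c : (F₁ ⊔ F₂).Walk v v), c.IsCycle → k + 1 < c.length) (u v : V)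
    (huv : F₁.Adj u v) (hr : F₂.Reachable u v) : F₂.Adj u v ∨ k < F₂.dist u v := by
  by_cases hadj : F₂.Adj u v
  · exact Or.inl hadj
  · right
    obtain ⟨w, hw, hwl⟩ := hr.symm.exists_path_of_dist
    have hadj' : (F₁ ⊔ F₂).Adj u v := Or.inl huv
    have hcyc : (Walk.cons hadj' (w.mapLe le_sup_right)).IsCycle := by
      rw [Walk.cons_isCycle_iff]
      refine ⟨(Walk.isPath_mapLe _).2 hw, fun he => ?_⟩
      rw [Walk.edges_mapLe_eq_edges] at he
      exact hadj (w.adj_of_mem_edges he)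
    have h3 := hg u _ hcyc
    rw [Walk.length_cons, Walk.length_mapLe, hwl, SimpleGraph.dist_comm] at h3
    omega

end Pool.Agent.TH87.BD
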