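import Pool.Agent.TH87.BD.Basic

/-! # Words along the ancestor paths -/

set_option autoImplicit false

namespace Pool.Agent.TH87.BD

open SimpleGraph Finset

universe u

variable {V : Type u}

/-- one step up -/
def up (p : V → Option V) (x : V) : V := (p x).getD x

theorem lex_lt {n : ℕ} {f g : Fin n → Fin 4} (i : Fin n) (h1 : ∀ j, j < i → f j = g j)
    (h2 : f i < g i) : toLex f < toLex g :=
  ⟨i, h1, h2⟩

theorem exists_pot [Fintype V] (d : ℕ) (p₁ p₂ : V → Option V) (l : V → ℕ)
    (hl : ∀ x y, p₂ x = some y → l x = l y + 1) (h0 : ∀ x, p₂ x = none → l x = 0)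
    (hd : ∀ x, l x ≤ d) (hloop : ∀ x y, p₁ x = some y → ∀ n, (up p₂)^[n] y ≠ x) :
    ∃ φ₁ φ₂ : V → Lex (Fin (d + 1) → Fin 4),
      (∀ x y, p₂ x = some y → φ₁ x < φ₁ y ∧ φ₂ y < φ₂ x) ∧
      ∀ x y, p₁ x = some y → φ₁ x < φ₁ y ∨ φ₂ y < φ₂ x := by
  classical
  let anc : ℕ → V → V := fun i x => (up p₂)^[l x - i] x
  have hanc : ∀ x y, p₂ x = some y → ∀ i, i ≤ l y → anc i x = anc i y := by
    intro x y hxy i hi
    have h1 := hl x y hxy
    have h2 : l x - i = (l y - i) + 1 := by omega
    show (up p₂)^[l x - i] x = (up p₂)^[l y - i] y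
    rw [h2, Function.iterate_succ_apply]
    congr 1
    simp [up, hxy]
  let g : V → V := fun x => match p₁ x with
    | some y => if l x ≤ l y then anc (l x) y else x
    | none => x
  obtain ⟨σ, hσ⟩ := three g
  let e1 : V → Fin (d + 1) → Fin 4 := fun x i =>
    if (i : ℕ) ≤ l x then (σ (anc i x)).castSucc else 3
  let e2 : V → Fin (d + 1) → Fin 4 := fun x i =>
    if (i : ℕ) ≤ l x then (σ (anc i x)).succ else 0
  have h1in : ∀ x (i : Fin (d + 1)), (i : ℕ) ≤ l x → e1 x i = (σ (anc i x)).castSucc :=
    fun x i h => if_pos h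
  have h1out : ∀ x (i : Fin (d + 1)), l x < (i : ℕ) → e1 x i = 3 :=
    fun x i h => if_neg (not_le.2 h)
  have h2in : ∀ x (i : Fin (d + 1)), (i : ℕ) ≤ l x → e2 x i = (σ (anc i x)).succ :=
    fun x i h => if_pos h
  have h2out : ∀ x (i : Fin (d + 1)), l x < (i : ℕ) → e2 x i = 0 :=
    fun x i h => if_neg (not_le.2 h)
  have c3 : ∀ c : Fin 3, c.castSucc < (3 : Fin 4) := by decide
  have c0 : ∀ c : Fin 3, (0 : Fin 4) < c.succ := by decide
  -- the position after the last letter of `y`
  have hend : ∀ x y, l y < l x → (∀ j, j ≤ l y → σ (anc j x) = σ (anc j y)) →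
      toLex (e1 x) < toLex (e1 y) ∧ toLex (e2 y) < toLex (e2 x) := by
    intro x y hlt heq
    have hpos : l y + 1 < d + 1 := by
      have := hd x
      omega
    constructor
    · refine lex_lt ⟨l y + 1, hpos⟩ (fun j hj => ?_) ?_
      · have hj' : (j : ℕ) ≤ l y := by
          have : (j : ℕ) < l y + 1 := hj
          omega
        rw [h1in x j (by omega), h1in y j hj', heq _ hj']
      · rw [h1in x _ (by show l y + 1 ≤ l x; omega), h1out y _ (by show l y < l y + 1; omega)]
        exact c3 _
    · refine lex_lt ⟨l y + 1, hpos⟩ (fun j hj => ?_) ?_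
      · have hj' : (j : ℕ) ≤ l y := by
          have : (j : ℕ) < l y + 1 := hj
          omega
        rw [h2in x j (by omega), h2in y j hj', heq _ hj']
      · rw [h2in x _ (by show l y + 1 ≤ l x; omega), h2out y _ (by show l y < l y + 1; omega)]
        exact c0 _
  refine ⟨fun x => toLex (e1 x), fun x => toLex (e2 x), ?_, ?_⟩
  · intro x y hxy
    have h1 := hl x y hxy
    exact hend x y (by omega) fun j hj => by rw [hanc x y hxy j hj]
  · intro x y hxy
    by_cases hall : ∀ j, j ≤ l x → j ≤ l y → σ (anc j x) = σ (anc j y)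
    · rcases le_or_gt (l x) (l y) with hle | hlt
      · exfalso
        have h2 := hall (l x) le_rfl hle
        have h3 : anc (l x) x = x := by
          show (up p₂)^[l x - l x] x = x
          rw [Nat.sub_self, Function.iterate_zero_apply]
        have h4 : g x = anc (l x) y := by
          show (match p₁ x with
            | some y => if l x ≤ l y then anc (l x) y else x
            | none => x) = _
          rw [hxy]
          exact if_pos hle
        rw [h3, ← h4] at h2
        refine hσ x ?_ h2
        rw [h4]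
        exact hloop x y hxy _
      · exact Or.inl (hend x y hlt fun j hj => hall j (by omega) hj).1
    · push Not at hall
      obtain ⟨j, hj⟩ : ∃ j, (j ≤ l x ∧ j ≤ l y ∧ σ (anc j x) ≠ σ (anc j y)) ∧
          ∀ i, i < j → σ (anc i x) = σ (anc i y) := by
        have hex : ∃ j, j ≤ l x ∧ j ≤ l y ∧ σ (anc j x) ≠ σ (anc j y) := hall
        refine ⟨Nat.find hex, Nat.find_spec hex, fun i hi => ?_⟩
        by_contra hne
        have h5 := Nat.find_spec hex
        exact Nat.find_min hex hi ⟨by omega, by omega, hne⟩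
      obtain ⟨⟨hjx, hjy, hne⟩, hmin⟩ := hj
      have hpos : j < d + 1 := by
        have := hd x
        omega
      rcases lt_or_gt_of_ne hne with h | h
      · left
        refine lex_lt ⟨j, hpos⟩ (fun i hi => ?_) ?_
        · have hi' : (i : ℕ) < j := hi
          rw [h1in x i (by omega), h1in y i (by omega), hmin _ hi']
        · rw [h1in x _ hjx, h1in y _ hjy]
          exact Fin.castSucc_lt_castSucc_iff.2 h
      · right
        refine lex_lt ⟨j, hpos⟩ (fun i hi => ?_) ?_
        · have hi' : (i : ℕ) < j := hi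
          rw [h2in x i (by omega), h2in y i (by omega), hmin _ hi']
        · rw [h2in x _ hjx, h2in y _ hjy]
          exact Fin.succ_lt_succ_iff.2 h

end Pool.Agent.TH87.BD
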